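import Mathlib

section

/-!
# Counting eigenvalues of Hermitian matrices
-/

open Finset

namespace Pool.Agent.Lib.MP_6db48f_an

section general

variable {ι κ : Type*} [Fintype ι] [DecidableEq ι] [Fintype κ] [DecidableEq κ]

/-- number of roots of the characteristic polynomial with real part at most `x` -/
noncomputable def cnt (M : Matrix ι ι ℂ) (x : ℝ) : ℕ :=
  (M.charpoly.roots.filter (fun z : ℂ => z.re ≤ x)).card

lemma cnt_eq {M : Matrix ι ι ℂ} (hM : M.IsHermitian) (x : ℝ) :
    cnt M x = (univ.filter (fun i => hM.eigenvalues i ≤ x)).card := by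
  unfold cnt
  rw [hM.roots_charpoly_eq_eigenvalues, Multiset.filter_map, Multiset.card_map]
  rfl

lemma cnt_mono (M : Matrix ι ι ℂ) : Monotone (cnt M) := by
  intro x y hxy
  unfold cnt
  apply Multiset.card_le_card
  apply Multiset.monotone_filter_right
  intro z hz
  exact hz.trans hxy

lemma quad_eigen {M : Matrix ι ι ℂ} (hM : M.IsHermitian) (v : EuclideanSpace ℂ ι) :
    (star (v : ι → ℂ) ⬝ᵥ (M.mulVec v)).re =
      ∑ i, hM.eigenvalues i * ‖inner ℂ (hM.eigenvectorBasis i) v‖ ^ 2 := by
  have hs := Matrix.isSymmetric_toEuclideanLin_iff.mpr hM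
  have h1 : star (v : ι → ℂ) ⬝ᵥ (M.mulVec v) = inner ℂ v (Matrix.toEuclideanLin M v) := by
    rw [EuclideanSpace.inner_eq_star_dotProduct, Matrix.ofLp_toEuclideanLin_apply, dotProduct_comm]
  rw [h1, ← hM.eigenvectorBasis.sum_inner_mul_inner v]
  rw [Complex.re_sum]
  refine Finset.sum_congr rfl fun i _ => ?_
  have h2 : Matrix.toEuclideanLin M (hM.eigenvectorBasis i) =
      (hM.eigenvalues i : ℂ) • hM.eigenvectorBasis i := by
    ext j
    have := congrFun (hM.mulVec_eigenvectorBasis i) j
    rw [Matrix.ofLp_toEuclideanLin_apply]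
    simpa using this
  have h3 : inner ℂ (hM.eigenvectorBasis i) (Matrix.toEuclideanLin M v) =
      (hM.eigenvalues i : ℂ) * inner ℂ (hM.eigenvectorBasis i) v := by
    rw [← hs, h2, inner_smul_left]
    simp
  rw [h3]
  have h4 : inner ℂ v (hM.eigenvectorBasis i) =
      (starRingEnd ℂ) (inner ℂ (hM.eigenvectorBasis i) v) := (inner_conj_symm _ _).symm
  rw [h4]
  have h5 : (starRingEnd ℂ) (inner ℂ (hM.eigenvectorBasis i) v) *
      ((hM.eigenvalues i : ℂ) * inner ℂ (hM.eigenvectorBasis i) v) =
      ((hM.eigenvalues i * ‖inner ℂ (hM.eigenvectorBasis i) v‖ ^ 2 : ℝ) : ℂ) := by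
    push_cast
    rw [← Complex.conj_mul']
    ring
  rw [h5, Complex.ofReal_re]

lemma norm_sq_eigen {M : Matrix ι ι ℂ} (hM : M.IsHermitian) (v : EuclideanSpace ℂ ι) :
    ‖v‖ ^ 2 = ∑ i, ‖inner ℂ (hM.eigenvectorBasis i) v‖ ^ 2 :=
  (hM.eigenvectorBasis.sum_sq_norm_inner_right v).symm

/-- **Comparison of counting functions.** -/
theorem cnt_le_cnt {A B : Matrix ι ι ℂ} (hA : A.IsHermitian) (hB : B.IsHermitian) {δ : ℝ}
    (h : ∀ v : ι → ℂ, (star v ⬝ᵥ (B.mulVec v)).re ≤ (star v ⬝ᵥ (A.mulVec v)).re +
      δ * ∑ i, ‖v i‖ ^ 2) (x : ℝ) :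
    cnt A x ≤ cnt B (x + δ) := by
  classical
  rw [cnt_eq hA, cnt_eq hB]
  by_contra hlt
  push Not at hlt
  set S := univ.filter (fun i => hA.eigenvalues i ≤ x) with hS
  set S' := univ.filter (fun i => hB.eigenvalues i ≤ x + δ) with hS'
  -- a nonzero vector orthogonal to the eigenvectors of A outside S and those of B in S'
  let f1 : EuclideanSpace ℂ ι →ₗ[ℂ] ({i // i ∈ Sᶜ} → ℂ) :=
    LinearMap.pi fun i => (innerSL ℂ (hA.eigenvectorBasis i.1)).toLinearMap
  let f2 : EuclideanSpace ℂ ι →ₗ[ℂ] ({i // i ∈ S'} → ℂ) :=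
    LinearMap.pi fun i => (innerSL ℂ (hB.eigenvectorBasis i.1)).toLinearMap
  have hdim : Module.finrank ℂ (({i // i ∈ Sᶜ} → ℂ) × ({i // i ∈ S'} → ℂ)) <
      Module.finrank ℂ (EuclideanSpace ℂ ι) := by
    rw [Module.finrank_prod, Module.finrank_pi, Module.finrank_pi, finrank_euclideanSpace,
      Fintype.card_coe, Fintype.card_coe, card_compl]
    have := card_le_univ S
    omega
  have hker := LinearMap.ker_ne_bot_of_finrank_lt (f := f1.prod f2) hdim
  obtain ⟨v, hv, hv0⟩ := (Submodule.ne_bot_iff _).mp hker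
  have hv1 : f1 v = 0 := congrArg Prod.fst (LinearMap.mem_ker.mp hv)
  have hv2 : f2 v = 0 := congrArg Prod.snd (LinearMap.mem_ker.mp hv)
  have hv1' : ∀ i, x < hA.eigenvalues i → inner ℂ (hA.eigenvectorBasis i) v = 0 := by
    intro i hi
    have hmem : i ∈ Sᶜ := by
      rw [mem_compl, hS, mem_filter]
      push Not
      intro _
      exact hi
    have := congrFun hv1 ⟨i, hmem⟩
    simpa [f1] using this
  have hv2' : ∀ i, hB.eigenvalues i ≤ x + δ → inner ℂ (hB.eigenvectorBasis i) v = 0 := by
    intro i hi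
    have hmem : i ∈ S' := by
      rw [hS', mem_filter]
      exact ⟨mem_univ _, hi⟩
    have := congrFun hv2 ⟨i, hmem⟩
    simpa [f2] using this
  have hA' : (star (v : ι → ℂ) ⬝ᵥ (A.mulVec v)).re ≤ x * ‖v‖ ^ 2 := by
    rw [quad_eigen hA, norm_sq_eigen hA, mul_sum]
    refine sum_le_sum fun i _ => ?_
    by_cases hi : x < hA.eigenvalues i
    · rw [hv1' i hi]; simp
    · exact mul_le_mul_of_nonneg_right (not_lt.mp hi) (by positivity)
  have hB' : (x + δ) * ‖v‖ ^ 2 < (star (v : ι → ℂ) ⬝ᵥ (B.mulVec v)).re := by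
    rw [quad_eigen hB, norm_sq_eigen hB, mul_sum]
    have hpos : 0 < ‖v‖ ^ 2 := by
      have : 0 < ‖v‖ := norm_pos_iff.mpr hv0
      positivity
    rw [norm_sq_eigen hB] at hpos
    obtain ⟨i, _, hi⟩ := exists_lt_of_sum_lt (by simpa using hpos :
      ∑ i : ι, (0 : ℝ) < ∑ i, ‖inner ℂ (hB.eigenvectorBasis i) v‖ ^ 2)
    apply sum_lt_sum
    · intro j _
      by_cases hj : hB.eigenvalues j ≤ x + δ
      · rw [hv2' j hj]; simp
      · exact mul_le_mul_of_nonneg_right (not_le.mp hj).le (by positivity)
    · refine ⟨i, mem_univ _, ?_⟩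
      apply mul_lt_mul_of_pos_right _ hi
      by_contra hc
      rw [hv2' i (not_lt.mp hc)] at hi
      simp at hi
  have h0 := h v
  have h1 : ∑ i, ‖(v : ι → ℂ) i‖ ^ 2 = ‖v‖ ^ 2 := by
    rw [EuclideanSpace.norm_sq_eq]
  rw [h1] at h0
  linarith [hA', hB', h0, add_mul x δ (‖v‖ ^ 2)]

lemma cnt_reindex (e : ι ≃ κ) (M : Matrix ι ι ℂ) (x : ℝ) :
    cnt (Matrix.reindex e e M) x = cnt M x := by
  unfold cnt; rw [Matrix.charpoly_reindex]

lemma cnt_conj (D E M : Matrix ι ι ℂ) (h : D * E = 1) (x : ℝ) : cnt (E * M * D) x = cnt M x := by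
  unfold cnt
  rw [Matrix.charpoly_mul_comm, ← mul_assoc, h, one_mul]

lemma charpoly_blocks (P Q : Matrix ι ι ℂ) :
    (Matrix.fromBlocks P Q Q P).charpoly = (P + Q).charpoly * (P - Q).charpoly := by
  have h1 : Matrix.fromBlocks (1 : Matrix ι ι ℂ) 1 0 (1 : Matrix ι ι ℂ) *
      Matrix.fromBlocks P Q Q P * Matrix.fromBlocks (1 : Matrix ι ι ℂ) (-1) 0 (1 : Matrix ι ι ℂ) =
      Matrix.fromBlocks (P + Q) 0 Q (P - Q) := by
    rw [Matrix.fromBlocks_multiply, Matrix.fromBlocks_multiply]
    congr 1 <;> simp
    · abel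
    · abel
  have h2 : Matrix.fromBlocks (1 : Matrix ι ι ℂ) (-1) 0 (1 : Matrix ι ι ℂ) *
      Matrix.fromBlocks (1 : Matrix ι ι ℂ) 1 0 (1 : Matrix ι ι ℂ) = 1 := by
    rw [Matrix.fromBlocks_multiply, ← Matrix.fromBlocks_one]
    congr 1 <;> simp
  rw [← Matrix.charpoly_fromBlocks_zero₁₂ (M₁₁ := P + Q) (M₂₁ := Q) (M₂₂ := P - Q), ← h1,
    Matrix.charpoly_mul_comm, ← mul_assoc, h2, one_mul]

lemma cnt_blocks (P Q : Matrix ι ι ℂ) (x : ℝ) :
    cnt (Matrix.fromBlocks P Q Q P) x = cnt (P + Q) x + cnt (P - Q) x := by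
  unfold cnt
  rw [charpoly_blocks, Polynomial.roots_mul, Multiset.filter_add, Multiset.card_add]
  exact mul_ne_zero (Matrix.charpoly_monic _).ne_zero (Matrix.charpoly_monic _).ne_zero

end general

end Pool.Agent.Lib.MP_6db48f_an
end

section

/-!
# The basilica action on finite words, and the gauge functions

`act false` is the generator `a`, `act true` is the generator `b`; the letter `false` is `0` and
the letter `true` is `1`.
-/

namespace Pool.Agent.Lib.MP_6db48f_an

/-- The two generators of the basilica group acting on finite words over `{0, 1}`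
(`false = 0`, `true = 1`); `act false` is the generator `a` and `act true` is the generator `b`:
`a(0w) = 0w`, `a(1w) = 1b(w)`, `b(0w) = 1w`, `b(1w) = 0a(w)`. -/
def act : Bool → List Bool → List Bool
  | _, [] => []
  | false, false :: w => false :: w
  | false, true :: w => true :: act true w
  | true, false :: w => true :: w
  | true, true :: w => false :: act false w

@[simp] lemma act_nil (s : Bool) : act s [] = [] := by cases s <;> rfl
@[simp] lemma act_ff (w : List Bool) : act false (false :: w) = false :: w := rfl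
@[simp] lemma act_ft (w : List Bool) : act false (true :: w) = true :: act true w := rfl
@[simp] lemma act_tf (w : List Bool) : act true (false :: w) = true :: w := rfl
@[simp] lemma act_tt (w : List Bool) : act true (true :: w) = false :: act false w := rfl

lemma length_act (s : Bool) (w : List Bool) : (act s w).length = w.length := by
  induction w generalizing s with
  | nil => simp
  | cons x w ih => cases s <;> cases x <;> simp [ih]

lemma act_injective (s : Bool) : Function.Injective (act s) := by
  intro v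
  induction v generalizing s with
  | nil =>
    intro w h
    have := congrArg List.length h
    rw [length_act, length_act] at this
    exact (List.length_eq_zero_iff.mp this.symm).symm
  | cons x v ih =>
    intro w h
    cases w with
    | nil =>
      have := congrArg List.length h
      rw [length_act, length_act] at this
      simp at this
    | cons y w =>
      cases s <;> cases x <;> cases y <;> simp at h ⊢
      · exact h
      · exact ih true h
      · exact h
      · exact ih false h

/-- does the generator flip the letter that follows the word `w`? -/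
def flp : Bool → List Bool → Bool
  | s, [] => s
  | false, false :: _ => false
  | false, true :: w => flp true w
  | true, false :: _ => false
  | true, true :: w => flp false w

lemma act_append (s : Bool) (w : List Bool) (x : Bool) :
    act s (w ++ [x]) = act s w ++ [xor x (flp s w)] := by
  induction w generalizing s with
  | nil => cases s <;> cases x <;> rfl
  | cons y w ih => cases s <;> cases y <;> simp [flp, ih]

/-- all letters are `1` -/
def ones : List Bool → Bool
  | [] => true
  | false :: _ => false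
  | true :: w => ones w

/-- parity of the length -/
def par : List Bool → Bool
  | [] => true
  | _ :: w => !par w

lemma flp_eq (s : Bool) (w : List Bool) : flp s w = (ones w && (par w == s)) := by
  induction w generalizing s with
  | nil => cases s <;> rfl
  | cons x w ih =>
    cases s <;> cases x <;> simp [flp, ones, par, ih]

lemma par_act (s : Bool) (w : List Bool) : par (act s w) = par w := by
  induction w generalizing s with
  | nil => simp
  | cons x w ih => cases s <;> cases x <;> simp [par, ih]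

/-- membership in the main cycle: `inC false` for the main `a`-cycle, `inC true` for the main
`b`-cycle -/
def inC : Bool → List Bool → Bool
  | _, [] => true
  | false, false :: _ => false
  | false, true :: w => inC true w
  | true, _ :: w => inC false w

lemma inC_act (s : Bool) (w : List Bool) : inC s (act s w) = inC s w := by
  induction w generalizing s with
  | nil => simp
  | cons x w ih => cases s <;> cases x <;> simp [inC, ih]

/-- length of the main cycle -/
def len : Bool → List Bool → ℕ
  | _, [] => 1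
  | false, _ :: w => len true w
  | true, _ :: w => 2 * len false w

lemma len_act (t s : Bool) (w : List Bool) : len t (act s w) = len t w := by
  induction w generalizing s t with
  | nil => simp
  | cons x w ih => cases s <;> cases x <;> cases t <;> simp [len, ih]

lemma len_pos (t : Bool) (w : List Bool) : 0 < len t w := by
  induction w generalizing t with
  | nil => simp [len]
  | cons x w ih => cases t <;> simp [len, ih]

/-- the gauge functions: normalized position on the main cycle -/
noncomputable def gg : Bool → List Bool → ℝ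
  | _, [] => 0
  | false, _ :: w => gg true w
  | true, x :: w => gg false w + (if inC false w then (if x then 1 else 0) else 1) / (len true (x :: w) : ℝ)

lemma gg_f (x : Bool) (w : List Bool) : gg false (x :: w) = gg true w := rfl
lemma gg_t (x : Bool) (w : List Bool) : gg true (x :: w) =
    gg false w + (if inC false w then (if x then 1 else 0) else 1) / (len true (x :: w) : ℝ) := rfl

lemma gg_act_ne (w : List Bool) : gg false (act true w) = gg false w ∧
    gg true (act false w) = gg true w ∧
    (∀ s, gg s (act s w) = gg s w + (if inC s w then 1 / (len s w : ℝ) - (if ones w then 1 else 0)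
      else 0)) := by
  induction w with
  | nil =>
    refine ⟨by simp, by simp, fun s => ?_⟩
    simp [inC, len, ones]
  | cons x w ih =>
    obtain ⟨h1, h2, h3⟩ := ih
    have hL := len_pos false w
    have hL' : (0 : ℝ) < len false w := by exact_mod_cast hL
    refine ⟨?_, ?_, ?_⟩
    · cases x
      · simp [gg_f]
      · simp [gg_f, h2]
    · cases x
      · simp [gg_t]
      · simp [gg_t, h1, len, len_act]
    · intro s
      cases s
      · cases x
        · simp [inC]
        · simp only [act_ft, gg_f, h3, inC, len, ones]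
          rfl
      · cases x
        · simp only [act_tf, gg_t, inC, len, ones]
          by_cases hc : inC false w = true
          · simp [hc]
          · simp [hc]
        · simp only [act_tt, gg_t, inC_act, h3, inC, len, ones, len_act]
          by_cases hc : inC false w = true
          · simp only [hc, if_true]
            push_cast
            by_cases ho : ones w = true
            · simp only [ho, if_true]
              field_simp
              simp
              ring
            · simp only [ho, if_false]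
              field_simp
              simp
              ring
          · simp [hc]

end Pool.Agent.Lib.MP_6db48f_an
end

section

/-!
# The Schreier graphs
-/

open Finset

namespace Pool.Agent.Lib.MP_6db48f_an

/-- The vertex set `{0,1}^n` of the Schreier graph `Γ_n`: words of length `n`. -/
abbrev W (n : ℕ) : Type := List.Vector Bool n

/-- The action of the generators on words of length `n`. -/
def actV (s : Bool) {n : ℕ} (w : W n) : W n := ⟨act s w.1, by rw [length_act, w.2]⟩

lemma actV_injective (s : Bool) (n : ℕ) : Function.Injective (actV s (n := n)) := by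
  intro v w h
  apply Subtype.ext
  exact act_injective s (congrArg Subtype.val h)

lemma actV_bijective (s : Bool) (n : ℕ) : Function.Bijective (actV s (n := n)) :=
  Finite.injective_iff_bijective.mp (actV_injective s n)

/-- The adjacency matrix of `Γ_n`: `A_n(x,y)` is the number of `s` in `{a, a⁻¹, b, b⁻¹}` with
`s(x) = y`. -/
noncomputable def adj (n : ℕ) : Matrix (W n) (W n) ℂ := fun x y =>
  ∑ s : Bool, ((if actV s x = y then 1 else 0) + (if actV s y = x then 1 else 0))

/-- The Laplacian `Δ(Γ_n) = I - A_n / 4`. -/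
noncomputable def lap (n : ℕ) : Matrix (W n) (W n) ℂ := 1 - (1 / 4 : ℂ) • adj n

/-- twisted adjacency matrix -/
noncomputable def tw {n : ℕ} (t : Bool → W n → ℂ) : Matrix (W n) (W n) ℂ := fun x y =>
  ∑ s : Bool, ((if actV s x = y then (starRingEnd ℂ) (t s x) else 0) +
    (if actV s y = x then t s y else 0))

/-- twisted Laplacian -/
noncomputable def lapT {n : ℕ} (t : Bool → W n → ℂ) : Matrix (W n) (W n) ℂ :=
  1 - (1 / 4 : ℂ) • tw t

lemma adj_eq (n : ℕ) : adj n = tw (n := n) (fun _ _ => 1) := by
  ext x y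
  simp [adj, tw]

lemma lap_eq (n : ℕ) : lap n = lapT (n := n) (fun _ _ => 1) := by
  unfold lap lapT; rw [adj_eq]

lemma tw_herm {n : ℕ} (t : Bool → W n → ℂ) : (tw t).IsHermitian := by
  ext x y
  rw [Matrix.conjTranspose_apply]
  unfold tw
  rw [star_sum]
  refine Finset.sum_congr rfl fun s _ => ?_
  rw [star_add, add_comm]
  congr 1
  · split_ifs <;> simp
  · split_ifs <;> simp

lemma lapT_herm {n : ℕ} (t : Bool → W n → ℂ) : (lapT t).IsHermitian := by
  unfold lapT
  apply Matrix.IsHermitian.sub Matrix.isHermitian_one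
  unfold Matrix.IsHermitian
  rw [Matrix.conjTranspose_smul, tw_herm t]
  congr 1
  simp

lemma lap_herm (n : ℕ) : (lap n).IsHermitian := by rw [lap_eq]; exact lapT_herm _

/-- the quadratic form -/
lemma quad_tw {n : ℕ} (t : Bool → W n → ℂ) (v : W n → ℂ) :
    (star v ⬝ᵥ ((tw t).mulVec v)).re =
      2 * ∑ s : Bool, ∑ y, ((starRingEnd ℂ) (v (actV s y)) * t s y * v y).re := by
  have h1 : star v ⬝ᵥ ((tw t).mulVec v) = ∑ s : Bool, ∑ y,
      ((starRingEnd ℂ) ((starRingEnd ℂ) (v (actV s y)) * t s y * v y) +
        (starRingEnd ℂ) (v (actV s y)) * t s y * v y) := by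
    simp only [dotProduct, Matrix.mulVec, tw, Finset.sum_mul, Finset.mul_sum, Pi.star_apply]
    have h2 : ∀ x y : W n, ∑ s : Bool, star (v x) * (((if actV s x = y then (starRingEnd ℂ) (t s x) else 0) +
        (if actV s y = x then t s y else 0)) * v y) = ∑ s : Bool,
        ((if actV s x = y then star (v x) * (starRingEnd ℂ) (t s x) * v y else 0) +
          (if actV s y = x then star (v x) * t s y * v y else 0)) := by
      intro x y
      refine Finset.sum_congr rfl fun s _ => ?_
      split_ifs <;> ring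
    simp only [h2]
    rw [Finset.sum_congr rfl (fun x _ => Finset.sum_comm)]
    rw [Finset.sum_comm]
    refine Finset.sum_congr rfl fun s _ => ?_
    simp only [Finset.sum_add_distrib]
    congr 1
    · refine Finset.sum_congr rfl fun x _ => ?_
      rw [Finset.sum_ite_eq]
      simp
      ring
    · rw [Finset.sum_comm]
      refine Finset.sum_congr rfl fun y _ => ?_
      rw [Finset.sum_ite_eq]
      simp
  rw [h1, Complex.re_sum, Finset.mul_sum]
  refine Finset.sum_congr rfl fun s _ => ?_
  rw [Complex.re_sum, Finset.mul_sum]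
  refine Finset.sum_congr rfl fun y _ => ?_
  rw [Complex.add_re, Complex.conj_re]
  ring

lemma quad_lapT {n : ℕ} (t : Bool → W n → ℂ) (v : W n → ℂ) :
    (star v ⬝ᵥ ((lapT t).mulVec v)).re = ∑ i, ‖v i‖ ^ 2 -
      (1 / 2) * ∑ s : Bool, ∑ y, ((starRingEnd ℂ) (v (actV s y)) * t s y * v y).re := by
  unfold lapT
  rw [Matrix.sub_mulVec, Matrix.one_mulVec, Matrix.smul_mulVec, dotProduct_sub, Complex.sub_re,
    dotProduct_smul, smul_eq_mul]
  have h1 : ((1 / 4 : ℂ) * (star v ⬝ᵥ ((tw t).mulVec v))).re =
      (1 / 4) * (star v ⬝ᵥ ((tw t).mulVec v)).re := by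
    have : (1 / 4 : ℂ) = ((1 / 4 : ℝ) : ℂ) := by push_cast; rfl
    rw [this, Complex.re_ofReal_mul]
  rw [h1, quad_tw]
  have h2 : (star v ⬝ᵥ v).re = ∑ i, ‖v i‖ ^ 2 := by
    simp only [dotProduct, Complex.re_sum, Pi.star_apply]
    refine Finset.sum_congr rfl fun i _ => ?_
    have : star (v i) * v i = ((‖v i‖ ^ 2 : ℝ) : ℂ) := by
      push_cast
      exact Complex.conj_mul' _
    rw [this, Complex.ofReal_re]
  rw [h2]
  ring

/-- comparison of two twists -/
lemma quad_compare {n : ℕ} (t t' : Bool → W n → ℂ) (ρ : Bool → ℝ)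
    (h : ∀ s y, ‖t s y - t' s y‖ ≤ ρ s) (v : W n → ℂ) :
    (star v ⬝ᵥ ((lapT t).mulVec v)).re ≤ (star v ⬝ᵥ ((lapT t').mulVec v)).re +
      (1 / 2) * (∑ s, ρ s) * ∑ i, ‖v i‖ ^ 2 := by
  rw [quad_lapT, quad_lapT]
  have h1 : ∀ s : Bool, ∑ y, ((starRingEnd ℂ) (v (actV s y)) * t' s y * v y).re -
      ∑ y, ((starRingEnd ℂ) (v (actV s y)) * t s y * v y).re ≤ ρ s * ∑ i, ‖v i‖ ^ 2 := by
    intro s
    rw [← Finset.sum_sub_distrib]
    have hρ : ∀ y : W n, 0 ≤ ρ s := fun y => (norm_nonneg _).trans (h s y)
    have h2 : ∀ y : W n, ((starRingEnd ℂ) (v (actV s y)) * t' s y * v y).re -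
        ((starRingEnd ℂ) (v (actV s y)) * t s y * v y).re ≤
        ρ s * ((‖v (actV s y)‖ ^ 2 + ‖v y‖ ^ 2) / 2) := by
      intro y
      rw [← Complex.sub_re]
      refine (Complex.re_le_norm _).trans ?_
      have h3 : (starRingEnd ℂ) (v (actV s y)) * t' s y * v y -
          (starRingEnd ℂ) (v (actV s y)) * t s y * v y =
          -((starRingEnd ℂ) (v (actV s y)) * (t s y - t' s y) * v y) := by ring
      rw [h3, norm_neg, norm_mul, norm_mul, RCLike.norm_conj]
      have h4 := h s y
      have h5 : ‖v (actV s y)‖ * ‖v y‖ ≤ (‖v (actV s y)‖ ^ 2 + ‖v y‖ ^ 2) / 2 := by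
        nlinarith [sq_nonneg (‖v (actV s y)‖ - ‖v y‖)]
      calc ‖v (actV s y)‖ * ‖t s y - t' s y‖ * ‖v y‖
          = ‖t s y - t' s y‖ * (‖v (actV s y)‖ * ‖v y‖) := by ring
        _ ≤ ρ s * ((‖v (actV s y)‖ ^ 2 + ‖v y‖ ^ 2) / 2) :=
          mul_le_mul h4 h5 (by positivity) (hρ y)
    refine (Finset.sum_le_sum fun y _ => h2 y).trans ?_
    rw [← Finset.mul_sum, ← Finset.sum_div, Finset.sum_add_distrib]
    have h6 : ∑ y, ‖v (actV s y)‖ ^ 2 = ∑ i, ‖v i‖ ^ 2 :=
      Function.Bijective.sum_comp (actV_bijective s n) (fun i => ‖v i‖ ^ 2)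
    rw [h6]
    apply le_of_eq
    ring
  have h7 := Finset.sum_le_sum (s := (univ : Finset Bool)) (fun s _ => h1 s)
  rw [Finset.sum_sub_distrib, ← Finset.sum_mul] at h7
  linarith

lemma cnt_compare {n : ℕ} (t t' : Bool → W n → ℂ) (ρ : Bool → ℝ)
    (h : ∀ s y, ‖t s y - t' s y‖ ≤ ρ s) (x : ℝ) :
    cnt (lapT t') x ≤ cnt (lapT t) (x + (1 / 2) * ∑ s, ρ s) :=
  cnt_le_cnt (lapT_herm t') (lapT_herm t) (fun v => quad_compare t t' ρ h v) x

/-- gauge invariance -/
lemma cnt_gauge {n : ℕ} (t : Bool → W n → ℂ) (u : W n → ℂ)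
    (hu : ∀ y, u y * (starRingEnd ℂ) (u y) = 1) (x : ℝ) :
    cnt (lapT (fun s y => t s y * u y * (starRingEnd ℂ) (u (actV s y)))) x = cnt (lapT t) x := by
  have hD : Matrix.diagonal u * Matrix.diagonal (fun y => (starRingEnd ℂ) (u y)) = 1 := by
    rw [Matrix.diagonal_mul_diagonal]
    ext i j
    rw [Matrix.diagonal_apply, Matrix.one_apply]
    split_ifs with hij
    · exact hu i
    · rfl
  have h1 : lapT (fun s y => t s y * u y * (starRingEnd ℂ) (u (actV s y))) =
      Matrix.diagonal (fun y => (starRingEnd ℂ) (u y)) * lapT t * Matrix.diagonal u := by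
    ext i j
    rw [Matrix.mul_diagonal, Matrix.diagonal_mul]
    unfold lapT
    rw [Matrix.sub_apply, Matrix.sub_apply, Matrix.smul_apply, Matrix.smul_apply, mul_sub, sub_mul]
    congr 1
    · rw [Matrix.one_apply]
      split_ifs with hij
      · subst hij
        rw [mul_one, mul_comm]
        exact (hu i).symm
      · simp
    · rw [smul_eq_mul, smul_eq_mul]
      unfold tw
      rw [Finset.mul_sum, Finset.mul_sum, Finset.mul_sum, Finset.sum_mul]
      refine Finset.sum_congr rfl fun s _ => ?_
      by_cases h1 : actV s i = j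
      · by_cases h2 : actV s j = i
        · simp only [h1, h2, if_true, map_mul, Complex.conj_conj]; ring
        · simp only [h1, h2, if_true, if_false, map_mul, Complex.conj_conj]; ring
      · by_cases h2 : actV s j = i
        · simp only [h1, h2, if_true, if_false]; ring
        · simp only [h1, h2, if_false]; ring
  rw [h1]
  exact cnt_conj _ _ _ hD x

end Pool.Agent.Lib.MP_6db48f_an
end

section

/-!
# From level `n` to level `n + 1`
-/

open Finset

namespace Pool.Agent.Lib.MP_6db48f_an

/-- add a letter at the end -/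
def snoc {n : ℕ} (w : W n) (x : Bool) : W (n + 1) := ⟨w.1 ++ [x], by simp [w.2]⟩

lemma snoc_inj {n : ℕ} {w w' : W n} {x x' : Bool} : snoc w x = snoc w' x' ↔ w = w' ∧ x = x' := by
  constructor
  · intro h
    have h0 : w.1 ++ [x] = w'.1 ++ [x'] := congrArg Subtype.val h
    have h1 := List.append_inj h0 (by rw [w.2, w'.2])
    exact ⟨Subtype.ext h1.1, by simpa using h1.2⟩
  · rintro ⟨rfl, rfl⟩; rfl

lemma actV_snoc {n : ℕ} (s : Bool) (w : W n) (x : Bool) :
    actV s (snoc w x) = snoc (actV s w) (xor x (flp s w.1)) := by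
  apply Subtype.ext
  exact act_append s w.1 x

/-- the two halves of level `n + 1` -/
noncomputable def halves (n : ℕ) : W n ⊕ W n ≃ W (n + 1) :=
  Equiv.ofBijective (Sum.elim (fun w => snoc w false) (fun w => snoc w true)) (by
    rw [Fintype.bijective_iff_injective_and_card]
    constructor
    · rintro (w | w) (w' | w') h
      · simp only [Sum.elim_inl, snoc_inj] at h; rw [h.1]
      · simp only [Sum.elim_inl, Sum.elim_inr, snoc_inj] at h; simp at h
      · simp only [Sum.elim_inl, Sum.elim_inr, snoc_inj] at h; simp at h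
      · simp only [Sum.elim_inr, snoc_inj] at h; rw [h.1]
    · simp [pow_succ]; ring)

lemma halves_inl (n : ℕ) (w : W n) : halves n (Sum.inl w) = snoc w false := rfl
lemma halves_inr (n : ℕ) (w : W n) : halves n (Sum.inr w) = snoc w true := rfl

/-- the sign twist -/
noncomputable def sgn {n : ℕ} (s : Bool) (w : W n) : ℂ := if flp s w.1 then -1 else 1

noncomputable def t0 {n : ℕ} (s : Bool) (w : W n) : ℂ := if flp s w.1 then 0 else 1
noncomputable def t1 {n : ℕ} (s : Bool) (w : W n) : ℂ := if flp s w.1 then 1 else 0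

lemma tw_add {n : ℕ} (t t' : Bool → W n → ℂ) : tw t + tw t' = tw (fun s y => t s y + t' s y) := by
  ext x y
  simp only [Matrix.add_apply, tw]
  rw [← Finset.sum_add_distrib]
  refine Finset.sum_congr rfl fun s _ => ?_
  split_ifs <;> simp [map_add] <;> ring

lemma tw_sub {n : ℕ} (t t' : Bool → W n → ℂ) : tw t - tw t' = tw (fun s y => t s y - t' s y) := by
  ext x y
  simp only [Matrix.sub_apply, tw]
  rw [← Finset.sum_sub_distrib]
  refine Finset.sum_congr rfl fun s _ => ?_
  split_ifs <;> simp [map_sub] <;> ring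

lemma sum_t {n : ℕ} : lapT (n := n) t0 + (-((1 / 4 : ℂ) • tw t1)) = lap n := by
  rw [lap_eq]
  unfold lapT
  rw [sub_add, sub_right_inj, sub_neg_eq_add, ← smul_add, tw_add]
  congr 2
  ext s y
  unfold t0 t1
  split_ifs <;> simp

lemma sub_t {n : ℕ} : lapT (n := n) t0 - (-((1 / 4 : ℂ) • tw t1)) = lapT sgn := by
  unfold lapT
  rw [sub_sub, sub_right_inj, ← sub_eq_add_neg, ← smul_sub, tw_sub]
  congr 2
  ext s y
  unfold t0 t1 sgn
  split_ifs <;> simp

lemma lap_blocks (n : ℕ) : Matrix.reindex (halves n).symm (halves n).symm (lap (n + 1)) =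
    Matrix.fromBlocks (lapT t0) (-((1 / 4 : ℂ) • tw t1)) (-((1 / 4 : ℂ) • tw t1)) (lapT t0) := by
  ext i j
  rw [Matrix.reindex_apply, Matrix.submatrix_apply, Equiv.symm_symm]
  rcases i with w | w <;> rcases j with w' | w'
  · rw [halves_inl, halves_inl, Matrix.fromBlocks_apply₁₁]
    simp only [lap, lapT, adj, tw, Matrix.sub_apply, Matrix.smul_apply, Matrix.one_apply,
      snoc_inj, actV_snoc, t0]
    congr 2
    · simp
    · refine Finset.sum_congr rfl fun s _ => ?_
      cases flp s w.1 <;> cases flp s w'.1 <;> simp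
  · rw [halves_inl, halves_inr, Matrix.fromBlocks_apply₁₂]
    simp only [lap, adj, tw, Matrix.sub_apply, Matrix.smul_apply, Matrix.one_apply,
      snoc_inj, actV_snoc, t1, Matrix.neg_apply]
    rw [show (if w = w' ∧ false = true then (1 : ℂ) else 0) = 0 by simp, zero_sub]
    congr 2
    refine Finset.sum_congr rfl fun s _ => ?_
    cases flp s w.1 <;> cases flp s w'.1 <;> simp
  · rw [halves_inl, halves_inr, Matrix.fromBlocks_apply₂₁]
    simp only [lap, adj, tw, Matrix.sub_apply, Matrix.smul_apply, Matrix.one_apply,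
      snoc_inj, actV_snoc, t1, Matrix.neg_apply]
    rw [show (if w = w' ∧ true = false then (1 : ℂ) else 0) = 0 by simp, zero_sub]
    congr 2
    refine Finset.sum_congr rfl fun s _ => ?_
    cases flp s w.1 <;> cases flp s w'.1 <;> simp
  · rw [halves_inr, halves_inr, Matrix.fromBlocks_apply₂₂]
    simp only [lap, lapT, adj, tw, Matrix.sub_apply, Matrix.smul_apply, Matrix.one_apply,
      snoc_inj, actV_snoc, t0]
    congr 2
    · simp
    · refine Finset.sum_congr rfl fun s _ => ?_
      cases flp s w.1 <;> cases flp s w'.1 <;> simp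

lemma cnt_lap_succ (n : ℕ) (x : ℝ) :
    cnt (lap (n + 1)) x = cnt (lap n) x + cnt (lapT (n := n) sgn) x := by
  rw [← cnt_reindex (halves n).symm (lap (n + 1)), lap_blocks, cnt_blocks, sum_t, sub_t]

end Pool.Agent.Lib.MP_6db48f_an
end

section

/-!
# The distribution functions of consecutive levels are close
-/

open Finset Complex

namespace Pool.Agent.Lib.MP_6db48f_an

lemma inC_of_ones (s : Bool) (w : List Bool) (h : ones w = true) : inC s w = true := by
  induction w generalizing s with
  | nil => simp [inC]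
  | cons x w ih =>
    cases x
    · simp [ones] at h
    · cases s <;> simp only [inC] <;> exact ih _ (by simpa [ones] using h)

lemma len_eq (w : List Bool) : len false w = 2 ^ (w.length / 2) ∧
    len true w = 2 ^ ((w.length + 1) / 2) := by
  induction w with
  | nil => simp [len]
  | cons x w ih =>
    obtain ⟨h1, h2⟩ := ih
    constructor
    · simp only [len, h2, List.length_cons]
    · simp only [len, h1, List.length_cons]
      rw [show (w.length + 1 + 1) / 2 = w.length / 2 + 1 by omega, pow_succ]
      ring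

lemma len_ge (s : Bool) (w : List Bool) : 2 ^ (w.length / 2) ≤ len s w := by
  cases s
  · exact (len_eq w).1.ge
  · rw [(len_eq w).2]
    exact Nat.pow_le_pow_right (by norm_num) (by omega)

/-- the gauge transformation -/
noncomputable def uu {n : ℕ} (w : W n) : ℂ := cexp (Real.pi * I * (gg (par w.1) w.1 : ℂ))

lemma uu_unit {n : ℕ} (w : W n) : uu w * (starRingEnd ℂ) (uu w) = 1 := by
  unfold uu
  rw [← Complex.exp_conj, ← Complex.exp_add]
  simp

lemma twist_eq {n : ℕ} (s : Bool) (w : W n) :
    sgn s w * uu w * (starRingEnd ℂ) (uu (actV s w)) =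
      if par w.1 = s ∧ inC s w.1 = true then cexp (-(Real.pi * I / (len s w.1 : ℂ))) else 1 := by
  have hpar : par (actV s w).1 = par w.1 := par_act s w.1
  have h0 : uu w * (starRingEnd ℂ) (uu (actV s w)) =
      cexp (Real.pi * I * ((gg (par w.1) w.1 - gg (par w.1) (act s w.1) : ℝ) : ℂ)) := by
    unfold uu
    rw [← Complex.exp_conj, ← Complex.exp_add, hpar]
    congr 1
    simp only [map_mul, Complex.conj_ofReal, Complex.conj_I]
    push_cast
    have : (actV s w).1 = act s w.1 := rfl
    rw [this]
    ring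
  rw [mul_assoc, h0]
  unfold sgn
  by_cases hs : par w.1 = s
  · rw [flp_eq, hs, (gg_act_ne w.1).2.2 s]
    simp only [true_and, beq_self_eq_true, Bool.and_true]
    by_cases hc : inC s w.1 = true
    · simp only [hc, if_true]
      by_cases ho : ones w.1 = true
      · simp only [ho, if_true]
        have h1 : (Real.pi * I * ((gg s w.1 - (gg s w.1 + (1 / (len s w.1 : ℝ) - 1)) : ℝ) : ℂ)) =
            -(Real.pi * I / (len s w.1 : ℂ)) + Real.pi * I := by
          push_cast; ring
        rw [h1, Complex.exp_add, Complex.exp_pi_mul_I]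
        ring
      · simp only [ho]
        have h1 : (Real.pi * I * ((gg s w.1 - (gg s w.1 + (1 / (len s w.1 : ℝ) - 0)) : ℝ) : ℂ)) =
            -(Real.pi * I / (len s w.1 : ℂ)) := by
          push_cast; ring
        simp only [Bool.false_eq_true, if_false]
        rw [h1]
        ring
    · have ho : ones w.1 ≠ true := fun ho => hc (inC_of_ones s w.1 ho)
      simp [hc, ho]
  · have h1 : flp s w.1 = false := by
      rw [flp_eq]
      have : (par w.1 == s) = false := by simpa using hs
      rw [this, Bool.and_false]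
    have h2 : gg (par w.1) (act s w.1) = gg (par w.1) w.1 := by
      revert hs
      cases hp : par w.1 <;> cases s <;> intro hs
      · exact absurd rfl hs
      · exact (gg_act_ne w.1).1
      · exact (gg_act_ne w.1).2.1
      · exact absurd rfl hs
    rw [h1, h2]
    simp [hs]

/-- the size of the perturbation at level `n` -/
noncomputable def rho (n : ℕ) : ℝ := Real.pi / 2 ^ (n / 2)

lemma par_eq {n : ℕ} (w : W n) : par w.1 = decide (n % 2 = 0) := by
  have : ∀ l : List Bool, par l = decide (l.length % 2 = 0) := by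
    intro l
    induction l with
    | nil => simp [par]
    | cons x l ih =>
      have h : ((x :: l).length % 2 = 0) ↔ ¬ (l.length % 2 = 0) := by
        rw [List.length_cons]; omega
      rw [par, ih, decide_eq_decide.mpr h, decide_not]
  rw [this, w.2]

lemma twist_close {n : ℕ} (s : Bool) (w : W n) :
    ‖sgn s w * uu w * (starRingEnd ℂ) (uu (actV s w)) - 1‖ ≤
      if s = decide (n % 2 = 0) then rho n else 0 := by
  rw [twist_eq, par_eq]
  by_cases hs : s = decide (n % 2 = 0)
  · rw [if_pos hs]
    by_cases hc : inC s w.1 = true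
    · rw [if_pos ⟨hs.symm, hc⟩]
      have h1 : cexp (-(Real.pi * I / (len s w.1 : ℂ))) =
          cexp (I * ((-(Real.pi / (len s w.1 : ℝ)) : ℝ) : ℂ)) := by
        congr 1; push_cast; ring
      rw [h1]
      refine (Real.norm_exp_I_mul_ofReal_sub_one_le).trans ?_
      rw [Real.norm_eq_abs, abs_neg, abs_of_nonneg (by positivity)]
      unfold rho
      have h2 := len_ge s w.1
      rw [w.2] at h2
      have h3 : ((2 : ℝ) ^ (n / 2)) ≤ (len s w.1 : ℝ) := by exact_mod_cast h2
      exact div_le_div_of_nonneg_left Real.pi_pos.le (by positivity) h3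
    · rw [if_neg (fun h => hc h.2)]
      simp [rho]
      positivity
  · rw [if_neg (fun h => hs h.1.symm), if_neg hs]
    simp

lemma sum_rho (n : ℕ) : ∑ s : Bool, (if s = decide (n % 2 = 0) then rho n else 0) = rho n := by
  rw [Finset.sum_ite_eq']; simp

lemma cnt_twist_le (n : ℕ) (x : ℝ) : cnt (lapT (n := n) sgn) x ≤ cnt (lap n) (x + rho n / 2) := by
  rw [← cnt_gauge sgn uu uu_unit, lap_eq]
  have := cnt_compare (n := n) (fun _ _ => 1)
    (fun s y => sgn s y * uu y * (starRingEnd ℂ) (uu (actV s y)))
    (fun s => if s = decide (n % 2 = 0) then rho n else 0)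
    (fun s y => by rw [norm_sub_rev]; exact twist_close s y) x
  rw [sum_rho] at this
  convert this using 2
  ring

lemma cnt_le_twist (n : ℕ) (x : ℝ) : cnt (lap n) x ≤ cnt (lapT (n := n) sgn) (x + rho n / 2) := by
  rw [← cnt_gauge sgn uu uu_unit, lap_eq]
  have := cnt_compare (n := n)
    (fun s y => sgn s y * uu y * (starRingEnd ℂ) (uu (actV s y))) (fun _ _ => 1)
    (fun s => if s = decide (n % 2 = 0) then rho n else 0)
    (fun s y => twist_close s y) x
  rw [sum_rho] at this
  convert this using 2
  ring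

/-- normalized counting function -/
noncomputable def FF (n : ℕ) (x : ℝ) : ℝ := (cnt (lap n) x : ℝ) / 2 ^ n

lemma FF_mono (n : ℕ) : Monotone (FF n) := by
  intro x y hxy
  unfold FF
  apply div_le_div_of_nonneg_right _ (by positivity)
  exact_mod_cast cnt_mono _ hxy

/-- the tail bound -/
noncomputable def eta (n : ℕ) : ℝ := 4 * Real.pi * (3 / 4) ^ n

lemma eta_pos (n : ℕ) : 0 < eta n := by unfold eta; positivity

lemma eta_anti {m n : ℕ} (h : n ≤ m) : eta m ≤ eta n := by
  unfold eta
  apply mul_le_mul_of_nonneg_left _ (by positivity)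
  exact pow_le_pow_of_le_one (by norm_num) (by norm_num) h

lemma rho_le (n : ℕ) : rho n / 2 ≤ eta n - eta (n + 1) := by
  have h1 : eta n - eta (n + 1) = Real.pi * (3 / 4) ^ n := by
    unfold eta; rw [pow_succ]; ring
  rw [h1]
  unfold rho
  have h2 : (1 : ℝ) / 2 ^ (n / 2) ≤ 2 * (3 / 4) ^ n := by
    rcases Nat.even_or_odd' n with ⟨k, rfl | rfl⟩
    · rw [show 2 * k / 2 = k by omega, pow_mul]
      have : (1 : ℝ) / 2 ^ k = (1 / 2) ^ k := by rw [div_pow, one_pow]
      rw [this]
      have h3 : ((1 : ℝ) / 2) ^ k ≤ ((3 / 4) ^ 2) ^ k :=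
        pow_le_pow_left₀ (by norm_num) (by norm_num) k
      have h4 : (0 : ℝ) ≤ ((3 / 4) ^ 2) ^ k := by positivity
      linarith
    · rw [show (2 * k + 1) / 2 = k by omega, pow_succ, pow_mul]
      have : (1 : ℝ) / 2 ^ k = (1 / 2) ^ k := by rw [div_pow, one_pow]
      rw [this]
      have h3 : ((1 : ℝ) / 2) ^ k ≤ ((3 / 4) ^ 2) ^ k :=
        pow_le_pow_left₀ (by norm_num) (by norm_num) k
      have h4 : (0 : ℝ) ≤ ((3 / 4) ^ 2) ^ k := by positivity
      linarith
  have h5 := mul_le_mul_of_nonneg_left h2 Real.pi_pos.le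
  have h6 : Real.pi / 2 ^ (n / 2) / 2 = Real.pi * (1 / 2 ^ (n / 2)) / 2 := by ring
  rw [h6]
  linarith

lemma FF_succ_le (n : ℕ) (x : ℝ) : FF (n + 1) x ≤ FF n (x + (eta n - eta (n + 1))) := by
  have h1 := cnt_lap_succ n x
  have h2 := cnt_twist_le n x
  have h3 : cnt (lap n) (x + rho n / 2) ≤ cnt (lap n) (x + (eta n - eta (n + 1))) :=
    cnt_mono _ (by linarith [rho_le n])
  have h4 : cnt (lap n) x ≤ cnt (lap n) (x + (eta n - eta (n + 1))) :=
    cnt_mono _ (by
      have : 0 ≤ rho n := by unfold rho; positivity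
      linarith [rho_le n])
  have h5 : cnt (lap (n + 1)) x ≤ 2 * cnt (lap n) (x + (eta n - eta (n + 1))) := by omega
  unfold FF
  rw [pow_succ, div_le_div_iff₀ (by positivity) (by positivity)]
  have h6 : (cnt (lap (n + 1)) x : ℝ) ≤ 2 * cnt (lap n) (x + (eta n - eta (n + 1))) := by
    exact_mod_cast h5
  calc (cnt (lap (n + 1)) x : ℝ) * 2 ^ n ≤
      2 * cnt (lap n) (x + (eta n - eta (n + 1))) * 2 ^ n :=
        mul_le_mul_of_nonneg_right h6 (by positivity)
    _ = _ := by ring

lemma le_FF_succ (n : ℕ) (x : ℝ) : FF n (x - (eta n - eta (n + 1))) ≤ FF (n + 1) x := by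
  have h1 := cnt_lap_succ n x
  have h2 := cnt_le_twist n (x - rho n / 2)
  rw [sub_add_cancel] at h2
  have h3 : cnt (lap n) (x - (eta n - eta (n + 1))) ≤ cnt (lap n) (x - rho n / 2) :=
    cnt_mono _ (by linarith [rho_le n])
  have h4 : cnt (lap n) (x - (eta n - eta (n + 1))) ≤ cnt (lap n) x :=
    cnt_mono _ (by
      have : 0 ≤ rho n := by unfold rho; positivity
      linarith [rho_le n])
  have h5 : 2 * cnt (lap n) (x - (eta n - eta (n + 1))) ≤ cnt (lap (n + 1)) x := by omega
  unfold FF
  rw [pow_succ, div_le_div_iff₀ (by positivity) (by positivity)]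
  have h6 : 2 * (cnt (lap n) (x - (eta n - eta (n + 1))) : ℝ) ≤ cnt (lap (n + 1)) x := by
    exact_mod_cast h5
  calc (cnt (lap n) (x - (eta n - eta (n + 1))) : ℝ) * (2 ^ n * 2) =
      2 * cnt (lap n) (x - (eta n - eta (n + 1))) * 2 ^ n := by ring
    _ ≤ _ := mul_le_mul_of_nonneg_right h6 (by positivity)

lemma FF_chain (n k : ℕ) : ∀ x : ℝ, FF (n + k) x ≤ FF n (x + (eta n - eta (n + k))) ∧
    FF n (x - (eta n - eta (n + k))) ≤ FF (n + k) x := by
  induction k with
  | zero => intro x; simp
  | succ k ih =>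
    intro x
    constructor
    · refine (FF_succ_le (n + k) x).trans ?_
      refine ((ih _).1).trans ?_
      apply le_of_eq
      congr 1
      rw [← add_assoc n k 1]
      ring
    · refine le_trans ?_ (le_FF_succ (n + k) x)
      refine le_trans ?_ ((ih _).2)
      apply le_of_eq
      congr 1
      rw [← add_assoc n k 1]
      ring

lemma FF_le {n m : ℕ} (h : n ≤ m) (x : ℝ) : FF m x ≤ FF n (x + eta n) := by
  obtain ⟨k, rfl⟩ := Nat.exists_eq_add_of_le h
  exact ((FF_chain n k x).1).trans (FF_mono n (by linarith [eta_pos (n + k)]))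

lemma le_FF {n m : ℕ} (h : n ≤ m) (x : ℝ) : FF n (x - eta n) ≤ FF m x := by
  obtain ⟨k, rfl⟩ := Nat.exists_eq_add_of_le h
  exact (FF_mono n (by linarith [eta_pos (n + k)])).trans ((FF_chain n k x).2)

end Pool.Agent.Lib.MP_6db48f_an
end
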