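import Pool.Agent.Lib.MP_6db48f_an.Limit

/-!
# Existence of the KNS measure
-/

open MeasureTheory Filter Set ProbabilityTheory
open scoped Topology BoundedContinuousFunction ENNReal

namespace Pool.Agent.Lib.MP_6db48f_an

lemma FF_le_one (n : ℕ) (x : ℝ) : FF n x ≤ 1 := by
  unfold FF
  rw [div_le_one (by positivity), cnt_eq (lap_herm n)]
  have := Finset.card_le_univ (Finset.univ.filter (fun i => (lap_herm n).eigenvalues i ≤ x))
  rw [card_W] at this
  exact_mod_cast this

lemma exists_bound : ∃ R : ℝ, (∀ i, (lap_herm 0).eigenvalues i ≤ R) ∧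
    ∀ i, -R ≤ (lap_herm 0).eigenvalues i := by
  refine ⟨∑ i, |(lap_herm 0).eigenvalues i|, fun i => ?_, fun i => ?_⟩
  · exact (le_abs_self _).trans (Finset.single_le_sum
      (f := fun i => |(lap_herm 0).eigenvalues i|) (fun j _ => abs_nonneg _) (Finset.mem_univ i))
  · have h1 := Finset.single_le_sum
      (f := fun i => |(lap_herm 0).eigenvalues i|) (fun j _ => abs_nonneg _) (Finset.mem_univ i)
    have h2 := neg_abs_le ((lap_herm 0).eigenvalues i)
    linarith

lemma exists_compact : ∃ R : ℝ, ∀ m, nu m (Icc (-R) R)ᶜ = 0 := by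
  obtain ⟨R, h1, h2⟩ := exists_bound
  have hF1 : FF 0 R = 1 := by
    unfold FF
    rw [cnt_eq (lap_herm 0)]
    have : Finset.univ.filter (fun i => (lap_herm 0).eigenvalues i ≤ R) = Finset.univ :=
      Finset.filter_true_of_mem (fun i _ => h1 i)
    rw [this, Finset.card_univ, card_W]
    simp
  have hF0 : FF 0 (-R - 1) = 0 := by
    unfold FF
    rw [cnt_eq (lap_herm 0)]
    have : Finset.univ.filter (fun i => (lap_herm 0).eigenvalues i ≤ -R - 1) = ∅ :=
      Finset.filter_false_of_mem (fun i _ => by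
        have := h2 i
        push Not
        linarith)
    rw [this]
    simp
  refine ⟨R + 1 + eta 0, fun m => ?_⟩
  have h3 : FF m (R + eta 0) = 1 := by
    apply le_antisymm (FF_le_one m _)
    have := le_FF (Nat.zero_le m) (R + eta 0)
    rwa [add_sub_cancel_right, hF1] at this
  have h4 : FF m (-R - 1 - eta 0) = 0 := by
    apply le_antisymm
    · have := FF_le (Nat.zero_le m) (-R - 1 - eta 0)
      rwa [sub_add_cancel, hF0] at this
    · unfold FF; positivity
  have hsub : (Icc (-(R + 1 + eta 0)) (R + 1 + eta 0))ᶜ ⊆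
      Iic (-R - 1 - eta 0) ∪ (Iic (R + eta 0))ᶜ := by
    intro y hy
    rw [mem_compl_iff, mem_Icc, not_and_or, not_le, not_le] at hy
    rcases hy with hy | hy
    · left; rw [mem_Iic]; linarith
    · right; rw [mem_compl_iff, mem_Iic, not_le]; linarith
  refine measure_mono_null hsub ?_
  rw [measure_union_null_iff]
  constructor
  · rw [nu_Iic, h4, ENNReal.ofReal_zero]
  · rw [measure_compl measurableSet_Iic (by finiteness), nu_univ, nu_Iic, h3, ENNReal.ofReal_one,
      tsub_self]

lemma compact_closure : IsCompact (closure (range nuP)) := by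
  apply isCompact_closure_of_isTightMeasureSet
  rw [isTightMeasureSet_iff_exists_isCompact_measure_compl_le]
  intro ε _
  obtain ⟨R, hR⟩ := exists_compact
  refine ⟨Icc (-R) R, isCompact_Icc, ?_⟩
  rintro μ ⟨P, ⟨m, rfl⟩, rfl⟩
  have : nu m (Icc (-R) R)ᶜ ≤ ε := by rw [hR m]; exact zero_le
  exact this

lemma cluster_le {μ : ProbabilityMeasure ℝ} (h : MapClusterPt μ atTop nuP) (n : ℕ) (x : ℝ) :
    (μ : Measure ℝ) (Iio x) ≤ ENNReal.ofReal (FF n (x + eta n)) := by
  obtain ⟨U, hU, hT⟩ := mapClusterPt_iff_ultrafilter.mp h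
  have h1 := ProbabilityMeasure.le_liminf_measure_open_of_tendsto hT (isOpen_Iio (a := x))
  refine h1.trans ?_
  apply liminf_le_of_frequently_le
  · apply Eventually.frequently
    have : ∀ᶠ m in (U : Filter ℕ), n ≤ m := hU (eventually_ge_atTop n)
    filter_upwards [this] with m hm
    have h2 : nu m (Iio x) ≤ ENNReal.ofReal (FF n (x + eta n)) := by
      refine (measure_mono Iio_subset_Iic_self).trans ?_
      rw [nu_Iic]
      exact ENNReal.ofReal_le_ofReal (FF_le hm x)
    exact h2
  · isBoundedDefault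

lemma le_cluster {μ : ProbabilityMeasure ℝ} (h : MapClusterPt μ atTop nuP) (n : ℕ) (x : ℝ) :
    ENNReal.ofReal (FF n (x - eta n)) ≤ (μ : Measure ℝ) (Iic x) := by
  obtain ⟨U, hU, hT⟩ := mapClusterPt_iff_ultrafilter.mp h
  have h1 := ProbabilityMeasure.limsup_measure_closed_le_of_tendsto hT (isClosed_Iic (a := x))
  refine le_trans ?_ h1
  apply le_limsup_of_frequently_le
  · apply Eventually.frequently
    have : ∀ᶠ m in (U : Filter ℕ), n ≤ m := hU (eventually_ge_atTop n)
    filter_upwards [this] with m hm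
    have h2 : ENNReal.ofReal (FF n (x - eta n)) ≤ nu m (Iic x) := by
      rw [nu_Iic]
      exact ENNReal.ofReal_le_ofReal (le_FF hm x)
    exact h2
  · isBoundedDefault

lemma cluster_compare {μ μ' : ProbabilityMeasure ℝ} (h : MapClusterPt μ atTop nuP)
    (h' : MapClusterPt μ' atTop nuP) {x y : ℝ} (hxy : x < y) :
    (μ : Measure ℝ) (Iic x) ≤ (μ' : Measure ℝ) (Iic y) := by
  have hev : ∀ᶠ n in atTop, 2 * eta n < (y - x) / 2 := by
    have : Tendsto (fun n => 2 * eta n) atTop (𝓝 (2 * 0)) := eta_tendsto.const_mul 2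
    rw [mul_zero] at this
    exact this.eventually_lt_const (by linarith)
  obtain ⟨n, hn⟩ := hev.exists
  calc (μ : Measure ℝ) (Iic x) ≤ (μ : Measure ℝ) (Iio ((x + y) / 2)) :=
        measure_mono (fun z hz => by
          rw [mem_Iic] at hz; rw [mem_Iio]; linarith)
    _ ≤ ENNReal.ofReal (FF n ((x + y) / 2 + eta n)) := cluster_le h n _
    _ ≤ ENNReal.ofReal (FF n (y - eta n)) :=
        ENNReal.ofReal_le_ofReal (FF_mono n (by linarith))
    _ ≤ _ := le_cluster h' n y

lemma cluster_cdf_le {μ μ' : ProbabilityMeasure ℝ} (h : MapClusterPt μ atTop nuP)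
    (h' : MapClusterPt μ' atTop nuP) (x : ℝ) :
    cdf (μ : Measure ℝ) x ≤ cdf (μ' : Measure ℝ) x := by
  rw [← StieltjesFunction.iInf_Ioi_eq (cdf (μ' : Measure ℝ)) x]
  have : Nonempty (Ioi x) := ⟨⟨x + 1, by simp⟩⟩
  apply le_ciInf
  intro y
  have h1 := cluster_compare h h' (show x < (y : ℝ) from y.2)
  rw [cdf_eq_real, cdf_eq_real]
  exact ENNReal.toReal_mono (by finiteness) h1

lemma cluster_unique {μ μ' : ProbabilityMeasure ℝ} (h : MapClusterPt μ atTop nuP)
    (h' : MapClusterPt μ' atTop nuP) : μ = μ' := by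
  have h1 : (μ : Measure ℝ) = (μ' : Measure ℝ) := by
    apply Measure.eq_of_cdf
    apply StieltjesFunction.ext
    intro x
    exact le_antisymm (cluster_cdf_le h h' x) (cluster_cdf_le h' h x)
  exact Subtype.ext h1

/-- The KNS measure exists. -/
theorem exists_kns : ∃ μ : Measure ℝ, IsKNS μ := by
  have hmem : ∀ n, nuP n ∈ closure (range nuP) := fun n => subset_closure (mem_range_self n)
  obtain ⟨μ, -, hμ⟩ := compact_closure.exists_mapClusterPt (f := atTop) (u := nuP)
    (by
      rw [le_principal_iff, mem_map]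
      exact Eventually.of_forall hmem)
  have hT : Tendsto nuP atTop (𝓝 μ) :=
    compact_closure.tendsto_nhds_of_unique_mapClusterPt (Eventually.of_forall hmem)
      (fun x _ hx => cluster_unique hx hμ)
  refine ⟨μ, inferInstance, fun f => ?_⟩
  exact ProbabilityMeasure.tendsto_iff_forall_integral_tendsto.mp hT f

end Pool.Agent.Lib.MP_6db48f_an
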