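import Pool.Agent.Lib.MP_6db48f_an.Cdf

/-!
# The KNS measure and its gap labels
-/

open MeasureTheory Filter Set
open scoped Topology BoundedContinuousFunction ENNReal

namespace Pool.Agent.Lib.MP_6db48f_an

/-- The spectral counting measure `ν_n = 2^{-n} ∑ δ_λ`, summed over the eigenvalues of
`Δ(Γ_n)` with multiplicity. -/
noncomputable def nu (n : ℕ) : Measure ℝ :=
  ((2 : ℝ≥0∞) ^ n)⁻¹ • ∑ i, Measure.dirac ((lap_herm n).eigenvalues i)

/-- `μ` is the KNS measure: the probability measure which is the weak limit of the spectral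
counting measures `ν_n`. -/
def IsKNS (μ : Measure ℝ) : Prop :=
  IsProbabilityMeasure μ ∧ ∀ f : ℝ →ᵇ ℝ,
    Tendsto (fun n => ∫ x, f x ∂(nu n)) atTop (𝓝 (∫ x, f x ∂μ))

/-- `U` is a gap of `μ`: a bounded connected component of the complement of the support. -/
def IsGap (μ : Measure ℝ) (U : Set ℝ) : Prop :=
  Bornology.IsBounded U ∧ ∃ x ∈ μ.supportᶜ, U = connectedComponentIn μ.supportᶜ x

lemma card_W (n : ℕ) : Fintype.card (W n) = 2 ^ n := by simp

lemma nu_univ (n : ℕ) : nu n univ = 1 := by
  unfold nu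
  rw [Measure.smul_apply, Measure.finsetSum_apply]
  simp only [measure_univ, Finset.sum_const, Finset.card_univ, card_W, nsmul_eq_mul, mul_one,
    smul_eq_mul]
  push_cast
  exact ENNReal.inv_mul_cancel (by positivity) (by finiteness)

instance (n : ℕ) : IsProbabilityMeasure (nu n) := ⟨nu_univ n⟩

/-- `ν_n` as a probability measure -/
noncomputable def nuP (n : ℕ) : ProbabilityMeasure ℝ := ⟨nu n, inferInstance⟩

lemma nu_Iic (n : ℕ) (x : ℝ) : nu n (Iic x) = ENNReal.ofReal (FF n x) := by
  unfold nu FF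
  rw [Measure.smul_apply, Measure.finsetSum_apply, cnt_eq (lap_herm n)]
  simp only [Measure.dirac_apply' _ measurableSet_Iic, indicator_apply, mem_Iic, Pi.one_apply,
    smul_eq_mul]
  rw [Finset.sum_ite, Finset.sum_const_zero, add_zero, Finset.sum_const, nsmul_eq_mul, mul_one,
    ENNReal.ofReal_div_of_pos (by positivity), ENNReal.ofReal_natCast, div_eq_mul_inv, mul_comm,
    ENNReal.ofReal_pow (by norm_num)]
  simp

lemma nu_real_Iic (n : ℕ) (x : ℝ) : (nu n).real (Iic x) = FF n x := by
  unfold Measure.real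
  rw [nu_Iic, ENNReal.toReal_ofReal]
  unfold FF; positivity

lemma eta_tendsto : Tendsto eta atTop (𝓝 0) := by
  unfold eta
  have := (tendsto_pow_atTop_nhds_zero_of_lt_one (r := (3 / 4 : ℝ)) (by norm_num)
    (by norm_num)).const_mul (4 * Real.pi)
  simpa using this

lemma IsKNS.prob {μ : Measure ℝ} (h : IsKNS μ) : IsProbabilityMeasure μ := h.1

/-- the KNS measure as a probability measure -/
noncomputable def muP {μ : Measure ℝ} (h : IsKNS μ) : ProbabilityMeasure ℝ := ⟨μ, h.prob⟩

lemma kns_tendsto {μ : Measure ℝ} (h : IsKNS μ) : Tendsto nuP atTop (𝓝 (muP h)) :=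
  ProbabilityMeasure.tendsto_iff_forall_integral_tendsto.mpr h.2

lemma FF_gap (n : ℕ) {x y : ℝ} (h : FF n x < FF n y) : FF n x + 1 / 2 ^ n ≤ FF n y := by
  unfold FF at h ⊢
  rw [← add_div]
  apply div_le_div_of_nonneg_right _ (by positivity)
  have h1 : (cnt (lap n) x : ℝ) < cnt (lap n) y := by
    have := mul_lt_mul_of_pos_right h (by positivity : (0 : ℝ) < 2 ^ n)
    rwa [div_mul_cancel₀ _ (by positivity), div_mul_cancel₀ _ (by positivity)] at this
  exact_mod_cast h1

lemma nu_Icc_ge {n m : ℕ} (hnm : n ≤ m) (E : ℝ) (h : FF n (E - eta n) < FF n (E + eta n)) :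
    ENNReal.ofReal (1 / 2 ^ n) ≤ nu m (Icc (E - 2 * eta n) (E + 2 * eta n)) := by
  have h1 := FF_gap n h
  have h2 := FF_le hnm (E - 2 * eta n)
  have h3 := le_FF hnm (E + 2 * eta n)
  rw [show E - 2 * eta n + eta n = E - eta n by ring] at h2
  rw [show E + 2 * eta n - eta n = E + eta n by ring] at h3
  have h4 : nu m (Ioc (E - 2 * eta n) (E + 2 * eta n)) =
      ENNReal.ofReal (FF m (E + 2 * eta n) - FF m (E - 2 * eta n)) := by
    have hd : Ioc (E - 2 * eta n) (E + 2 * eta n) =
        Iic (E + 2 * eta n) \ Iic (E - 2 * eta n) := by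
      ext y; simp [and_comm]
    rw [hd, measure_sdiff (Iic_subset_Iic.mpr (by linarith [eta_pos n]))
      measurableSet_Iic.nullMeasurableSet (by finiteness), nu_Iic, nu_Iic,
      ENNReal.ofReal_sub]
    unfold FF; positivity
  refine le_trans ?_ (measure_mono Ioc_subset_Icc_self)
  rw [h4]
  apply ENNReal.ofReal_le_ofReal
  linarith

theorem label {μ : Measure ℝ} (h : IsKNS μ) {E : ℝ} (hE : E ∉ μ.support) :
    ∃ (g : ℝ) (n : ℕ), 0 < g ∧ μ.real (Iic E) = (cnt (lap n) E : ℝ) / 2 ^ n := by
  have := h.prob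
  obtain ⟨U, hU, hU0⟩ := Measure.notMem_support_iff_exists.mp hE
  obtain ⟨g, hg, hgU⟩ := Metric.mem_nhds_iff.mp hU
  have hball : μ (Metric.ball E g) = 0 := measure_mono_null hgU hU0
  -- choose n
  have hev : ∀ᶠ n in atTop, 2 * eta n < g := by
    have : Tendsto (fun n => 2 * eta n) atTop (𝓝 (2 * 0)) := eta_tendsto.const_mul 2
    rw [mul_zero] at this
    exact this.eventually_lt_const hg
  obtain ⟨n, hn⟩ := hev.exists
  have hconst : FF n (E - eta n) = FF n (E + eta n) := by
    by_contra hne
    have hlt : FF n (E - eta n) < FF n (E + eta n) :=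
      lt_of_le_of_ne (FF_mono n (by linarith [eta_pos n])) hne
    have hsub : Icc (E - 2 * eta n) (E + 2 * eta n) ⊆ Metric.ball E g := by
      intro y hy
      rw [Metric.mem_ball, Real.dist_eq, abs_lt]
      constructor <;> linarith [hy.1, hy.2]
    have hlim := ProbabilityMeasure.limsup_measure_closed_le_of_tendsto (kns_tendsto h)
      (isClosed_Icc (a := E - 2 * eta n) (b := E + 2 * eta n))
    have h0 : μ (Icc (E - 2 * eta n) (E + 2 * eta n)) = 0 := measure_mono_null hsub hball
    have hlim' : limsup (fun m => nu m (Icc (E - 2 * eta n) (E + 2 * eta n))) atTop ≤ 0 := by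
      rw [← h0]; exact hlim
    have hge : ENNReal.ofReal (1 / 2 ^ n) ≤
        limsup (fun m => nu m (Icc (E - 2 * eta n) (E + 2 * eta n))) atTop := by
      apply le_limsup_of_frequently_le
      · apply Eventually.frequently
        filter_upwards [eventually_ge_atTop n] with m hm
        exact nu_Icc_ge hm E hlt
      · isBoundedDefault
    have : (0 : ℝ≥0∞) < ENNReal.ofReal (1 / 2 ^ n) := by
      rw [ENNReal.ofReal_pos]; positivity
    exact absurd (hge.trans hlim') (not_le.mpr this)
  have hFm : ∀ m, n ≤ m → FF m E = FF n E := by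
    intro m hm
    have h1 := FF_le hm E
    have h2 := le_FF hm E
    have h3 : FF n (E - eta n) ≤ FF n E := FF_mono n (by linarith [eta_pos n])
    have h4 : FF n E ≤ FF n (E + eta n) := FF_mono n (by linarith [eta_pos n])
    linarith
  refine ⟨g, n, hg, ?_⟩
  have hfr : (muP h : Measure ℝ) (frontier (Iic E)) = 0 := by
    show μ (frontier (Iic E)) = 0
    rw [frontier_Iic]
    exact measure_mono_null (singleton_subset_iff.mpr (Metric.mem_ball_self hg)) hball
  have hT := ProbabilityMeasure.tendsto_measure_of_null_frontier_of_tendsto' (kns_tendsto h) hfr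
  have hT' : Tendsto (fun m => nu m (Iic E)) atTop (𝓝 (μ (Iic E))) := hT
  have hT2 : Tendsto (fun m => nu m (Iic E)) atTop (𝓝 (ENNReal.ofReal (FF n E))) := by
    apply tendsto_const_nhds.congr'
    filter_upwards [eventually_ge_atTop n] with m hm
    rw [nu_Iic, hFm m hm]
  have hfin := tendsto_nhds_unique hT' hT2
  unfold Measure.real
  rw [hfin, ENNReal.toReal_ofReal (by unfold FF; positivity)]
  rfl

end Pool.Agent.Lib.MP_6db48f_an
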